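import Mathlib
import Pool.Agent.MP_4c9d8f_co.Defs
import Pool.Agent.Cvc.Sets
import Pool.Agent.Cvc.Main

set_option autoImplicit false

namespace Pool.Agent.Results.MP_4c9d8f_co.ConvexOrConic

open Pool.Agent.MP4c9d8f Cvc

/-- Classification of the planar admissible sets with `n ≥ 7` points (not on a line) which are in
strictly convex position or lie on a conic (pairs of lines included). Up to an invertible affine map
they are: the regular `n`-gon; for `n` odd the regular `(n+1)`-gon without a vertex; the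
`2 × [(n+1)/2]` grid, for `n` odd without one (arbitrary) point; for `n` odd the sets
`{(z^i, z^(-i)) : 0 ≤ i < n}`, `z < -1`; for `n` odd the sets
`{0} ∪ {(ρ^i, 0), (0, ρ^i) : 0 ≤ i < (n-1)/2}`, `ρ > 1`. -/
theorem result (S : Finset (Fin 2 → ℝ)) (h7 : 7 ≤ S.card)
    (hnc : ¬ Collinear ℝ (S : Set (Fin 2 → ℝ)))
    (hS : ConvexIndependent ℝ (fun x : S => (x : Fin 2 → ℝ)) ∨ LiesOnConic S) :
    Admissible S ↔
      IsAffinelyRegular S.card (S : Set (Fin 2 → ℝ)) ∨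
      (Odd S.card ∧ ∃ Φ : (Fin 2 → ℝ) ≃ᵃ[ℝ] (Fin 2 → ℝ),
        (S : Set (Fin 2 → ℝ)) ⊆ Φ '' regularPolygon (S.card + 1)) ∨
      (∃ Φ : (Fin 2 → ℝ) ≃ᵃ[ℝ] (Fin 2 → ℝ),
        (S : Set (Fin 2 → ℝ)) ⊆ Φ '' grid ((S.card + 1) / 2)) ∨
      (Odd S.card ∧ ∃ z : ℝ, z < -1 ∧ ∃ Φ : (Fin 2 → ℝ) ≃ᵃ[ℝ] (Fin 2 → ℝ),
        (S : Set (Fin 2 → ℝ)) = Φ '' powers z S.card) ∨
      (Odd S.card ∧ ∃ ρ : ℝ, 1 < ρ ∧ ∃ Φ : (Fin 2 → ℝ) ≃ᵃ[ℝ] (Fin 2 → ℝ),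
        (S : Set (Fin 2 → ℝ)) = Φ '' vee ρ ((S.card - 1) / 2)) :=
  Cvc.main S h7 hnc hS

end Pool.Agent.Results.MP_4c9d8f_co.ConvexOrConic
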