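import Mathlib
import Pool.Agent.MP_4c9d8f_co.Defs
import Pool.Agent.MP_4c9d8f_co.Final

set_option autoImplicit false

namespace Pool.Agent.Results.MP_4c9d8f_co.EvenGeneralPosition

open Pool.Agent.MP4c9d8f

/-- Classification of the planar admissible sets with an even number `n ≥ 4` of points and no three
points on a line: they are the affinely regular `n`-gons. -/
theorem result (S : Finset (Fin 2 → ℝ)) (h4 : 4 ≤ S.card) (heven : Even S.card)
    (hgen : ∀ x ∈ S, ∀ y ∈ S, ∀ z ∈ S, x ≠ y → y ≠ z → x ≠ z →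
      ¬ Collinear ℝ ({x, y, z} : Set (Fin 2 → ℝ)))
    (hadm : Admissible S) : IsAffinelyRegular S.card (S : Set (Fin 2 → ℝ)) :=
  main S h4 heven hgen hadm

end Pool.Agent.Results.MP_4c9d8f_co.EvenGeneralPosition
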