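import Mathlib
import Pool.Agent.MP_4c9d8f_co.Defs
import Pool.Agent.MP_4c9d8f_co.Radon
import Pool.Agent.MP_4c9d8f_co.Higher2
import Pool.Agent.MP_4c9d8f_co.SevenGeo

set_option autoImplicit false

namespace Pool.Agent.Results.MP_4c9d8f_co.HigherDimGeneralPosition

open Pool.Agent.MP4c9d8f

/-- Classification of the admissible sets in general position in dimension `m ≥ 3`. -/
theorem result (m : ℕ) (hm : 3 ≤ m) (S : Finset (Fin m → ℝ)) (hn : m + 1 ≤ S.card)
    (hS : GeneralPosition S) :
    Admissible S ↔ S.card = m + 1 ∨ (S.card = m + 2 ∧ Balanced S) := by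
  constructor
  · intro hadm
    rcases higher_card_all hm hS hn hadm with h | h
    · exact Or.inl h
    · exact Or.inr ⟨h, balanced_of_adm (by omega) h hS hadm⟩
  · rintro (h | ⟨h, hB⟩)
    · exact adm_succ (by omega) h
    · exact adm_of_balanced (by omega) h hB

end Pool.Agent.Results.MP_4c9d8f_co.HigherDimGeneralPosition
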