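import Mathlib

namespace Pool.Agent.Results.MP_4c9d8f_co.UnimodularClassification

open Finset

/-- `B` is a set of `m` affinely independent points whose affine hull is `{x | l x = c}`. -/
def Determines {m : ℕ} (B : Finset (Fin m → ℝ)) (l : (Fin m → ℝ) →ₗ[ℝ] ℝ) (c : ℝ) : Prop :=
  B.card = m ∧ AffineIndependent ℝ (Subtype.val : B → (Fin m → ℝ)) ∧
    (affineSpan ℝ (B : Set (Fin m → ℝ)) : Set (Fin m → ℝ)) = {x | l x = c}

/-- number of distinct parallel hyperplanes through points of `S` with `l > c` -/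
noncomputable def Nplus {m : ℕ} (S : Finset (Fin m → ℝ)) (l : (Fin m → ℝ) →ₗ[ℝ] ℝ) (c : ℝ) : ℕ :=
  ((S.image l).filter (fun t => c < t)).card

/-- number of distinct parallel hyperplanes through points of `S` with `l < c` -/
noncomputable def Nminus {m : ℕ} (S : Finset (Fin m → ℝ)) (l : (Fin m → ℝ) →ₗ[ℝ] ℝ) (c : ℝ) : ℕ :=
  ((S.image l).filter (fun t => t < c)).card

/-- `S` is not contained in any affine hyperplane. -/
def NotInHyperplane {m : ℕ} (S : Finset (Fin m → ℝ)) : Prop :=
  ∀ l : (Fin m → ℝ) →ₗ[ℝ] ℝ, l ≠ 0 → ∀ c : ℝ, ∃ s ∈ S, l s ≠ c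

/-- For every hyperplane `{l = c}` determined by `S`, at most `k` parallel hyperplanes through
points of `S` lie on each side. -/
def SideLevelsLe {m : ℕ} (k : ℕ) (S : Finset (Fin m → ℝ)) : Prop :=
  ∀ B ⊆ S, ∀ l : (Fin m → ℝ) →ₗ[ℝ] ℝ, l ≠ 0 → ∀ c : ℝ, Determines B l c →
    max (Nplus S l c) (Nminus S l c) ≤ k

/-- The admissibility condition of the problem. -/
def Admissible {m : ℕ} (S : Finset (Fin m → ℝ)) : Prop :=
  SideLevelsLe ((S.card - 1) / m) S

/-- Every hyperplane `H` determined by `S` sees all of `S` in `H` and in two parallel hyperplanes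
at the same distance on its two sides. -/
def EqualLevels {m : ℕ} (S : Finset (Fin m → ℝ)) : Prop :=
  ∀ B ⊆ S, ∀ l : (Fin m → ℝ) →ₗ[ℝ] ℝ, l ≠ 0 → ∀ c : ℝ, Determines B l c →
    ∃ d : ℝ, 0 < d ∧ ∀ s ∈ S, l s = c ∨ l s = c + d ∨ l s = c - d

/-- For every `m + 1` affinely independent points of `S`, every point of `S` has all its
barycentric coordinates in `{-1, 0, 1}`. -/
def Unimodular {m : ℕ} (S : Finset (Fin m → ℝ)) : Prop :=
  ∀ B ⊆ S, B.card = m + 1 → AffineIndependent ℝ (Subtype.val : B → (Fin m → ℝ)) →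
    ∀ s ∈ S, ∃ w : (Fin m → ℝ) → ℝ, (∀ b ∈ B, w b = -1 ∨ w b = 0 ∨ w b = 1) ∧
      ∑ b ∈ B, w b = 1 ∧ ∑ b ∈ B, w b • b = s

section aux

variable {m : ℕ}

/-- `m + 1` affinely independent points span. -/
lemma span_top (B : Finset (Fin m → ℝ)) (hB : B.card = m + 1)
    (hi : AffineIndependent ℝ (Subtype.val : B → (Fin m → ℝ))) :
    affineSpan ℝ (B : Set (Fin m → ℝ)) = ⊤ := by
  have h := hi.affineSpan_eq_top_iff_card_eq_finrank_add_one
  have h2 : Set.range (Subtype.val : B → (Fin m → ℝ)) = (B : Set (Fin m → ℝ)) := by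
    simp
  rw [h2] at h
  rw [h]
  simp [hB]

/-- Existence of barycentric coordinates. -/
lemma exists_coord (B : Finset (Fin m → ℝ)) (hB : B.card = m + 1)
    (hi : AffineIndependent ℝ (Subtype.val : B → (Fin m → ℝ))) (s : Fin m → ℝ) :
    ∃ w : (Fin m → ℝ) → ℝ, ∑ b ∈ B, w b = 1 ∧ ∑ b ∈ B, w b • b = s := by
  classical
  have htop := span_top B hB hi
  have h2 : Set.range (Subtype.val : B → (Fin m → ℝ)) = (B : Set (Fin m → ℝ)) := by
    simp
  let b : AffineBasis B ℝ (Fin m → ℝ) := ⟨Subtype.val, hi, by rw [h2]; exact htop⟩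
  refine ⟨fun x => if h : x ∈ B then b.coord ⟨x, h⟩ s else 0, ?_, ?_⟩
  · rw [← Finset.sum_coe_sort]
    have := b.sum_coord_apply_eq_one s
    simpa using this
  · rw [← Finset.sum_coe_sort]
    have := b.linear_combination_coord_eq_self s
    have hbv : ∀ i : B, b i = i.1 := fun i => rfl
    simp only [hbv] at this
    simpa using this

lemma comb_mem_span (C : Finset (Fin m → ℝ)) (w : (Fin m → ℝ) → ℝ) (hw : ∑ b ∈ C, w b = 1) :
    ∑ b ∈ C, w b • b ∈ affineSpan ℝ (C : Set (Fin m → ℝ)) := by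
  classical
  have h2 : Set.range (Subtype.val : C → (Fin m → ℝ)) = (C : Set (Fin m → ℝ)) := by
    simp
  have h1 : ∑ i : C, w i.1 = 1 := by
    rw [Finset.sum_coe_sort C (fun b => w b)]; exact hw
  have h3 := affineCombination_mem_affineSpan (k := ℝ) (s := (Finset.univ : Finset C))
    (w := fun i => w i.1) h1 (Subtype.val : C → (Fin m → ℝ))
  rw [Finset.affineCombination_eq_linear_combination _ _ _ h1, h2] at h3
  rw [Finset.sum_coe_sort C (fun b => w b • b)] at h3
  exact h3

/-- The hyperplane spanned by all but one point of an affine basis. -/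
lemma exists_functional (B : Finset (Fin m → ℝ)) (hB : B.card = m + 1)
    (hi : AffineIndependent ℝ (Subtype.val : B → (Fin m → ℝ))) (b₀ : Fin m → ℝ) (hb₀ : b₀ ∈ B) :
    ∃ l : (Fin m → ℝ) →ₗ[ℝ] ℝ, ∃ c : ℝ, Determines (B.erase b₀) l c ∧ l b₀ = c + 1 ∧
      ∀ b ∈ B, b ≠ b₀ → l b = c := by
  classical
  have htop := span_top B hB hi
  have h2 : Set.range (Subtype.val : B → (Fin m → ℝ)) = (B : Set (Fin m → ℝ)) := by
    simp
  let b : AffineBasis B ℝ (Fin m → ℝ) := ⟨Subtype.val, hi, by rw [h2]; exact htop⟩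
  let f := b.coord ⟨b₀, hb₀⟩
  have hf : ∀ x, f.linear x = f x - f 0 := by
    intro x
    have := f.linearMap_vsub x 0
    simpa using this
  have hbv : ∀ i : B, b i = i.1 := fun i => rfl
  have hl : ∀ x ∈ B, x ≠ b₀ → f.linear x = - f 0 := by
    intro x hx hne
    rw [hf]
    have : f x = 0 := by
      have := b.coord_apply_ne (i := ⟨b₀, hb₀⟩) (j := ⟨x, hx⟩) (by
        intro h; apply hne; exact (congrArg Subtype.val h).symm)
      simpa [hbv] using this
    rw [this]; ring
  refine ⟨f.linear, - f 0, ⟨?_, ?_, ?_⟩, ?_, hl⟩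
  · rw [Finset.card_erase_of_mem hb₀, hB]; rfl
  · have hsub : ∀ x : (B.erase b₀ : Finset _), x.1 ∈ B := fun x => Finset.mem_of_mem_erase x.2
    have := hi.comp_embedding (⟨fun x : (B.erase b₀ : Finset _) => (⟨x.1, hsub x⟩ : B), by
      intro x y h
      have := congrArg Subtype.val h
      exact Subtype.ext this⟩)
    exact this
  · ext x
    simp only [Set.mem_ofPred_eq, SetLike.mem_coe]
    constructor
    · intro hx
      have hle : affineSpan ℝ ((B.erase b₀ : Finset _) : Set (Fin m → ℝ)) ≤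
          (affineSpan ℝ {(0 : ℝ)}).comap f := by
        rw [affineSpan_le]
        intro y hy
        have hy' : y ∈ B.erase b₀ := Finset.mem_coe.1 hy
        have := hl y (Finset.mem_of_mem_erase hy') (Finset.ne_of_mem_erase hy')
        rw [hf] at this
        have h0 : f y = 0 := by linarith
        show y ∈ (affineSpan ℝ {(0 : ℝ)}).comap f
        rw [AffineSubspace.mem_comap, h0]
        exact mem_affineSpan ℝ (Set.mem_singleton _)
      have := hle hx
      rw [AffineSubspace.mem_comap, AffineSubspace.mem_affineSpan_singleton] at this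
      rw [hf, this]; ring
    · intro hx
      have h0 : f x = 0 := by rw [hf] at hx; linarith
      obtain ⟨w, hw1, hw2⟩ := exists_coord B hB hi x
      have hfx : f.linear x = - f 0 + w b₀ := by
        rw [← hw2, map_sum]
        have : ∀ b ∈ B, f.linear (w b • b) = w b * (- f 0) + if b = b₀ then w b₀ else 0 := by
          intro y hy
          rw [map_smul, smul_eq_mul]
          split_ifs with h
          · subst h
            have h1 : f y = 1 := by
              have := b.coord_apply_eq (⟨y, hb₀⟩ : B)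
              simpa [hbv] using this
            rw [hf, h1]; ring
          · rw [hl y hy h]; ring
        rw [Finset.sum_congr rfl this, Finset.sum_add_distrib, ← Finset.sum_mul, hw1,
          Finset.sum_ite_eq' B b₀ (fun _ => w b₀), if_pos hb₀]
        ring
      have hw0 : w b₀ = 0 := by rw [hx] at hfx; linarith
      have e1 : ∑ b ∈ B.erase b₀, w b = 1 := by
        rw [← hw1, ← Finset.add_sum_erase B w hb₀, hw0, zero_add]
      have e2 : ∑ b ∈ B.erase b₀, w b • b = x := by
        rw [← hw2, ← Finset.add_sum_erase B (fun b => w b • b) hb₀, hw0, zero_smul, zero_add]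
      rw [← e2]
      exact comb_mem_span _ w e1
  · rw [hf]
    have : f b₀ = 1 := by
      have := b.coord_apply_eq (⟨b₀, hb₀⟩ : B)
      simpa [hbv] using this
    rw [this]; ring

/-- A set not contained in a hyperplane has `m + 1` affinely independent points. -/
lemma exists_basis (hm : 1 ≤ m) (S : Finset (Fin m → ℝ)) (hS : NotInHyperplane S) :
    ∃ B ⊆ S, B.card = m + 1 ∧ AffineIndependent ℝ (Subtype.val : B → (Fin m → ℝ)) := by
  classical
  have hex : ∃ l : (Fin m → ℝ) →ₗ[ℝ] ℝ, l ≠ 0 := by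
    refine ⟨LinearMap.proj ⟨0, hm⟩, ?_⟩
    intro h
    have := congrArg (fun l : (Fin m → ℝ) →ₗ[ℝ] ℝ => l (fun _ => 1)) h
    simp at this
  obtain ⟨l₀, hl₀⟩ := hex
  obtain ⟨p, hp, -⟩ := hS l₀ hl₀ 0
  have htop : affineSpan ℝ (S : Set (Fin m → ℝ)) = ⊤ := by
    have hne : (S : Set (Fin m → ℝ)).Nonempty := ⟨p, hp⟩
    rw [AffineSubspace.affineSpan_eq_top_iff_vectorSpan_eq_top_of_nonempty ℝ _ _ hne]
    by_contra hlt
    obtain ⟨g, hg, hle⟩ := Submodule.exists_le_ker_of_lt_top _ (lt_top_iff_ne_top.2 hlt)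
    obtain ⟨s, hs, hsne⟩ := hS g hg (g p)
    apply hsne
    have : s - p ∈ vectorSpan ℝ (S : Set (Fin m → ℝ)) :=
      vsub_mem_vectorSpan ℝ hs hp
    have := hle this
    rw [LinearMap.mem_ker, map_sub] at this
    linarith
  obtain ⟨t, hts, htop', hti⟩ := exists_affineIndependent ℝ (Fin m → ℝ) (S : Set (Fin m → ℝ))
  have htf : t.Finite := S.finite_toSet.subset hts
  lift t to Finset (Fin m → ℝ) using htf
  refine ⟨t, by exact_mod_cast hts, ?_, hti⟩
  have h := hti.affineSpan_eq_top_iff_card_eq_finrank_add_one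
  have h2 : Set.range (Subtype.val : t → (Fin m → ℝ)) = (t : Set (Fin m → ℝ)) := by
    simp
  have h3 : affineSpan ℝ (Set.range (Subtype.val : t → (Fin m → ℝ))) = ⊤ := by
    rw [h2, htop', htop]
  have h4 := h.1 h3
  simpa using h4

/-- Adding a point outside the affine hull keeps affine independence. -/
lemma insert_indep [DecidableEq (Fin m → ℝ)] (C : Finset (Fin m → ℝ)) (s : Fin m → ℝ)
    (hi : AffineIndependent ℝ (Subtype.val : C → (Fin m → ℝ)))
    (hs : s ∉ affineSpan ℝ (C : Set (Fin m → ℝ))) :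
    AffineIndependent ℝ (Subtype.val : ↥(insert s C) → (Fin m → ℝ)) := by
  have hns : s ∉ C := by
    intro h
    exact hs (mem_affineSpan ℝ (by exact_mod_cast h))
  refine AffineIndependent.affineIndependent_of_notMem_span (k := ℝ)
    (p := (Subtype.val : ↥(insert s C) → (Fin m → ℝ)))
    (i := ⟨s, Finset.mem_insert_self s C⟩) ?_ ?_
  · have hmem : ∀ x : {y : ↥(insert s C) // y ≠ ⟨s, Finset.mem_insert_self s C⟩}, x.1.1 ∈ C := by
      intro x
      have h1 := x.1.2
      rw [Finset.mem_insert] at h1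
      rcases h1 with h1 | h1
      · exact absurd (Subtype.ext h1) x.2
      · exact h1
    have := hi.comp_embedding (⟨fun x : {y : ↥(insert s C) // y ≠ ⟨s, Finset.mem_insert_self s C⟩} =>
      (⟨x.1.1, hmem x⟩ : C), by
      intro x y h
      have := congrArg Subtype.val h
      exact Subtype.ext (Subtype.ext this)⟩)
    exact this
  · intro h
    apply hs
    refine affineSpan_mono ℝ ?_ h
    rintro _ ⟨y, hy, rfl⟩
    have h1 := y.2
    rw [Finset.mem_insert] at h1
    rcases h1 with h1 | h1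
    · exact absurd (Subtype.ext h1) hy
    · exact Finset.mem_coe.2 h1

/-- Positive barycentric coordinates are `1`, if every determined hyperplane sees at most one
level on its positive side. -/
lemma pos_coord (hm : 1 ≤ m) (S : Finset (Fin m → ℝ))
    (h : ∀ B ⊆ S, ∀ l : (Fin m → ℝ) →ₗ[ℝ] ℝ, l ≠ 0 → ∀ c : ℝ, Determines B l c → Nplus S l c ≤ 1)
    (B : Finset (Fin m → ℝ)) (hBS : B ⊆ S) (hB : B.card = m + 1)
    (hi : AffineIndependent ℝ (Subtype.val : B → (Fin m → ℝ))) (w : (Fin m → ℝ) → ℝ)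
    (hw1 : ∑ b ∈ B, w b = 1) (hw2 : ∑ b ∈ B, w b • b ∈ S) (b₀ : Fin m → ℝ) (hb₀ : b₀ ∈ B)
    (hpos : 0 < w b₀) : w b₀ = 1 := by
  classical
  obtain ⟨l, c, hdet, hl1, hl0⟩ := exists_functional B hB hi b₀ hb₀
  have hval : l (∑ b ∈ B, w b • b) = c + w b₀ := by
    rw [map_sum, ← Finset.add_sum_erase B _ hb₀]
    have : ∀ b ∈ B.erase b₀, l (w b • b) = w b * c := by
      intro b hb
      rw [map_smul, smul_eq_mul, hl0 b (Finset.mem_of_mem_erase hb) (Finset.ne_of_mem_erase hb)]
    rw [Finset.sum_congr rfl this, ← Finset.sum_mul, map_smul, smul_eq_mul, hl1]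
    have e : w b₀ + ∑ b ∈ B.erase b₀, w b = 1 := by rw [Finset.add_sum_erase B w hb₀]; exact hw1
    have e' : ∑ b ∈ B.erase b₀, w b = 1 - w b₀ := by linarith
    rw [e']; ring
  have hl : l ≠ 0 := by
    intro h0
    have hc : c = -1 := by
      have := hl1
      rw [h0] at this
      simp at this
      linarith
    have hne : (B.erase b₀).Nonempty := by
      rw [← Finset.card_pos, hdet.1]; omega
    obtain ⟨b, hb⟩ := hne
    have := hl0 b (Finset.mem_of_mem_erase hb) (Finset.ne_of_mem_erase hb)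
    rw [h0, hc] at this
    norm_num at this
  have hle := h (B.erase b₀) ((Finset.erase_subset _ _).trans hBS) l hl c hdet
  unfold Nplus at hle
  rw [Finset.card_le_one] at hle
  have := hle (l b₀) (by
      rw [Finset.mem_filter]
      exact ⟨Finset.mem_image_of_mem _ (hBS hb₀), by rw [hl1]; linarith⟩)
    (l (∑ b ∈ B, w b • b)) (by
      rw [Finset.mem_filter]
      exact ⟨Finset.mem_image_of_mem _ hw2, by rw [hval]; linarith⟩)
  rw [hval, hl1] at this
  linarith

/-- All barycentric coordinates are in `{-1, 0, 1}`. -/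
lemma all_coord (hm : 1 ≤ m) (S : Finset (Fin m → ℝ))
    (h : ∀ B ⊆ S, ∀ l : (Fin m → ℝ) →ₗ[ℝ] ℝ, l ≠ 0 → ∀ c : ℝ, Determines B l c → Nplus S l c ≤ 1)
    (B : Finset (Fin m → ℝ)) (hBS : B ⊆ S) (hB : B.card = m + 1)
    (hi : AffineIndependent ℝ (Subtype.val : B → (Fin m → ℝ))) (w : (Fin m → ℝ) → ℝ)
    (hw1 : ∑ b ∈ B, w b = 1) (hw2 : ∑ b ∈ B, w b • b ∈ S) (b₀ : Fin m → ℝ) (hb₀ : b₀ ∈ B) :
    w b₀ = -1 ∨ w b₀ = 0 ∨ w b₀ = 1 := by
  classical
  rcases lt_trichotomy (w b₀) 0 with hneg | h0 | hpos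
  · left
    have hw0ne : w b₀ ≠ 0 := ne_of_lt hneg
    set s := ∑ b ∈ B, w b • b with hs
    -- a positive coordinate
    have hex : ∃ b₁ ∈ B.erase b₀, 0 < w b₁ := by
      by_contra hcon
      push Not at hcon
      have := Finset.sum_nonpos hcon
      rw [← Finset.add_sum_erase B w hb₀] at hw1
      linarith
    obtain ⟨b₁, hb₁, hb₁pos⟩ := hex
    have hb₁B := Finset.mem_of_mem_erase hb₁
    have hw₁ : w b₁ = 1 := pos_coord hm S h B hBS hB hi w hw1 hw2 b₁ hb₁B hb₁pos
    obtain ⟨l, c, hdet, hl1, hl0⟩ := exists_functional B hB hi b₀ hb₀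
    have hval : l s = c + w b₀ := by
      rw [hs, map_sum, ← Finset.add_sum_erase B _ hb₀]
      have : ∀ b ∈ B.erase b₀, l (w b • b) = w b * c := by
        intro b hb
        rw [map_smul, smul_eq_mul, hl0 b (Finset.mem_of_mem_erase hb) (Finset.ne_of_mem_erase hb)]
      rw [Finset.sum_congr rfl this, ← Finset.sum_mul, map_smul, smul_eq_mul, hl1]
      have e : w b₀ + ∑ b ∈ B.erase b₀, w b = 1 := by rw [Finset.add_sum_erase B w hb₀]; exact hw1
      have e' : ∑ b ∈ B.erase b₀, w b = 1 - w b₀ := by linarith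
      rw [e']; ring
    have hsns : s ∉ affineSpan ℝ ((B.erase b₀ : Finset _) : Set (Fin m → ℝ)) := by
      intro hmem
      have : s ∈ ({x | l x = c} : Set (Fin m → ℝ)) := by
        rw [← hdet.2.2]; exact hmem
      rw [Set.mem_ofPred_eq, hval] at this
      linarith
    have hns : s ∉ B.erase b₀ := by
      intro h
      exact hsns (mem_affineSpan ℝ (by exact_mod_cast h))
    have hi' := insert_indep (B.erase b₀) s hdet.2.1 hsns
    have hcard : (insert s (B.erase b₀)).card = m + 1 := by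
      rw [Finset.card_insert_of_notMem hns, hdet.1]
    have hsub : insert s (B.erase b₀) ⊆ S := by
      intro x hx
      rw [Finset.mem_insert] at hx
      rcases hx with rfl | hx
      · exact hw2
      · exact hBS (Finset.mem_of_mem_erase hx)
    -- the new coordinates of `b₀`
    let v : (Fin m → ℝ) → ℝ := fun b => if b = s then 1 / w b₀ else - w b / w b₀
    have hvs : v s = 1 / w b₀ := if_pos rfl
    have hvb : ∀ b ∈ B.erase b₀, v b = - w b / w b₀ := by
      intro b hb
      refine if_neg (fun hbs => hns ?_)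
      rw [← hbs]; exact hb
    have hsum1 : ∑ b ∈ insert s (B.erase b₀), v b = 1 := by
      rw [Finset.sum_insert hns, hvs, Finset.sum_congr rfl hvb, ← Finset.sum_div,
        Finset.sum_neg_distrib]
      have e : w b₀ + ∑ b ∈ B.erase b₀, w b = 1 := by rw [Finset.add_sum_erase B w hb₀]; exact hw1
      have e' : ∑ b ∈ B.erase b₀, w b = 1 - w b₀ := by linarith
      rw [e']
      field_simp
      ring
    have hsum2 : ∑ b ∈ insert s (B.erase b₀), v b • b = b₀ := by
      rw [Finset.sum_insert hns, hvs]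
      have : ∀ b ∈ B.erase b₀, v b • b = (- (1 / w b₀)) • (w b • b) := by
        intro b hb
        rw [hvb b hb, smul_smul]
        congr 1
        ring
      rw [Finset.sum_congr rfl this, ← Finset.smul_sum]
      have e : ∑ b ∈ B.erase b₀, w b • b = s - w b₀ • b₀ := by
        rw [hs, ← Finset.add_sum_erase B (fun b => w b • b) hb₀]
        abel
      rw [e, smul_sub, smul_smul]
      have : -(1 / w b₀) * w b₀ = -1 := by
        field_simp
      rw [this]
      module
    have hv1 : 0 < v b₁ := by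
      rw [hvb b₁ hb₁, hw₁]
      exact div_pos_of_neg_of_neg (by norm_num) hneg
    have := pos_coord hm S h (insert s (B.erase b₀)) hsub hcard hi' v hsum1
      (by rw [hsum2]; exact hBS hb₀) b₁ (Finset.mem_insert_of_mem hb₁) hv1
    rw [hvb b₁ hb₁, hw₁] at this
    rw [div_eq_iff hw0ne] at this
    linarith
  · right; left; exact h0
  · right; right
    exact pos_coord hm S h B hBS hB hi w hw1 hw2 b₀ hb₀ hpos

/-- A unimodular set has equal levels. -/
lemma equalLevels_of_unimodular (S : Finset (Fin m → ℝ)) (hS : NotInHyperplane S)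
    (hU : Unimodular S) : EqualLevels S := by
  classical
  intro B hBS l hl c hdet
  obtain ⟨s₀, hs₀, hne⟩ := hS l hl c
  have hns : s₀ ∉ affineSpan ℝ (B : Set (Fin m → ℝ)) := by
    intro h
    have : s₀ ∈ ({x | l x = c} : Set (Fin m → ℝ)) := by
      rw [← hdet.2.2]; exact h
    exact hne this
  have hmem : s₀ ∉ B := fun h => hns (mem_affineSpan ℝ (by exact_mod_cast h))
  have hi := insert_indep B s₀ hdet.2.1 hns
  have hcard : (insert s₀ B).card = m + 1 := by
    rw [Finset.card_insert_of_notMem hmem, hdet.1]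
  have hsub : insert s₀ B ⊆ S := Finset.insert_subset hs₀ hBS
  have hlB : ∀ b ∈ B, l b = c := by
    intro b hb
    have : b ∈ (affineSpan ℝ (B : Set (Fin m → ℝ)) : Set (Fin m → ℝ)) :=
      mem_affineSpan ℝ (by exact_mod_cast hb)
    rw [hdet.2.2] at this
    exact this
  refine ⟨|l s₀ - c|, abs_pos.2 (sub_ne_zero.2 hne), ?_⟩
  intro s hs
  obtain ⟨w, hw, hw1, hw2⟩ := hU (insert s₀ B) hsub hcard hi s hs
  have hval : l s = c + w s₀ * (l s₀ - c) := by
    rw [← hw2, map_sum, Finset.sum_insert hmem]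
    rw [Finset.sum_insert hmem] at hw1
    have : ∀ b ∈ B, l (w b • b) = w b * c := by
      intro b hb
      rw [map_smul, smul_eq_mul, hlB b hb]
    rw [Finset.sum_congr rfl this, ← Finset.sum_mul, map_smul, smul_eq_mul]
    have e' : ∑ b ∈ B, w b = 1 - w s₀ := by linarith
    rw [e']; ring
  rcases hw s₀ (Finset.mem_insert_self _ _) with h | h | h
  · rw [h] at hval
    rcases abs_cases (l s₀ - c) with ⟨h1, _⟩ | ⟨h1, _⟩
    · right; right; rw [h1, hval]; ring
    · right; left; rw [h1, hval]; ring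
  · left; rw [hval, h]; ring
  · rw [h] at hval
    rcases abs_cases (l s₀ - c) with ⟨h1, _⟩ | ⟨h1, _⟩
    · right; left; rw [h1, hval]; ring
    · right; right; rw [h1, hval]; ring

lemma levels_le_one (S : Finset (Fin m → ℝ)) (l : (Fin m → ℝ) →ₗ[ℝ] ℝ) (c d : ℝ) (hd : 0 < d)
    (h : ∀ s ∈ S, l s = c ∨ l s = c + d ∨ l s = c - d) : Nplus S l c ≤ 1 ∧ Nminus S l c ≤ 1 := by
  classical
  constructor
  · unfold Nplus
    rw [Finset.card_le_one]
    have key : ∀ a ∈ (S.image l).filter (fun t => c < t), a = c + d := by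
      intro a ha
      rw [Finset.mem_filter, Finset.mem_image] at ha
      obtain ⟨⟨s, hs, rfl⟩, h2⟩ := ha
      rcases h s hs with h3 | h3 | h3 <;> linarith
    intro a ha b hb
    rw [key a ha, key b hb]
  · unfold Nminus
    rw [Finset.card_le_one]
    have key : ∀ a ∈ (S.image l).filter (fun t => t < c), a = c - d := by
      intro a ha
      rw [Finset.mem_filter, Finset.mem_image] at ha
      obtain ⟨⟨s, hs, rfl⟩, h2⟩ := ha
      rcases h s hs with h3 | h3 | h3 <;> linarith
    intro a ha b hb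
    rw [key a ha, key b hb]

end aux

/-- Complete answer for all `n ≤ 2m`, in every dimension `m ≥ 1`; and, for every `n`, the
classification of the sets with at most one parallel hyperplane on each side. -/
theorem result (m : ℕ) (hm : 1 ≤ m) (S : Finset (Fin m → ℝ)) (hS : NotInHyperplane S) :
    (S.card ≤ 2 * m → ((Admissible S ↔ Unimodular S) ∧ (Admissible S ↔ EqualLevels S))) ∧
      (SideLevelsLe 1 S ↔ Unimodular S) ∧ (SideLevelsLe 1 S ↔ EqualLevels S) ∧
      (Unimodular S → Admissible S) := by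
  classical
  obtain ⟨B, hBS, hB, hBi⟩ := exists_basis hm S hS
  have hge : m + 1 ≤ S.card := hB ▸ Finset.card_le_card hBS
  have h1 : SideLevelsLe 1 S → Unimodular S := by
    intro hA B hBS hB hi s hs
    have h : ∀ B ⊆ S, ∀ l : (Fin m → ℝ) →ₗ[ℝ] ℝ, l ≠ 0 → ∀ c : ℝ, Determines B l c →
        Nplus S l c ≤ 1 := fun B hBS l hl c hdet =>
      (le_max_left _ _).trans (hA B hBS l hl c hdet)
    obtain ⟨w, hw1, hw2⟩ := exists_coord B hB hi s
    exact ⟨w, fun b hb => all_coord hm S h B hBS hB hi w hw1 (by rw [hw2]; exact hs) b hb, hw1, hw2⟩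
  have h2 : Unimodular S → EqualLevels S := equalLevels_of_unimodular S hS
  have h3 : EqualLevels S → SideLevelsLe 1 S := by
    intro hE B hBS l hl c hdet
    obtain ⟨d, hd, hlev⟩ := hE B hBS l hl c hdet
    obtain ⟨p1, p2⟩ := levels_le_one S l c d hd hlev
    exact max_le p1 p2
  have h4 : SideLevelsLe 1 S → Admissible S := by
    intro h B hBS l hl c hdet
    refine (h B hBS l hl c hdet).trans ?_
    rw [Nat.le_div_iff_mul_le (by omega)]
    omega
  have h5 : (SideLevelsLe 1 S ↔ Unimodular S) := ⟨h1, fun h => h3 (h2 h)⟩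
  have h6 : (SideLevelsLe 1 S ↔ EqualLevels S) := ⟨fun h => h2 (h1 h), h3⟩
  refine ⟨?_, h5, h6, fun h => h4 (h3 (h2 h))⟩
  intro hcard
  have hfl : (S.card - 1) / m = 1 := by
    apply Nat.div_eq_of_lt_le <;> omega
  have h7 : Admissible S ↔ SideLevelsLe 1 S := by
    unfold Admissible
    rw [hfl]
  exact ⟨h7.trans h5, h7.trans h6⟩

end Pool.Agent.Results.MP_4c9d8f_co.UnimodularClassification
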